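import Mathlib
import Pool.Agent.U810.NA.Near

set_option autoImplicit false

/-!
# The SHGH conjecture for multiplicities `m` and `m + 1` at every number `n ≥ 150` of points

Let `n ≥ 150`, let `m ≥ 1` be arbitrary and let `w i ∈ {m, m + 1}` be multiplicities at `n` general
points of the complex projective plane. Then `d H - ∑ w i E i` has `h⁰ = max (0, χ)` for EVERY degree
`d`. The points are those of one nonempty open set which does not depend on `d`.

So far this was known to the library for `4 ∣ n`, `n ≥ 144`, and for all `n ≥ N0` with an unspecified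
constant `N0`.
-/

namespace Pool.Agent.Results.MP_70e04f_ag.NearUniformFrom150

open MvPolynomial

/-- Forms of degree `d` vanishing to order at least `w i` at the points `(P i 0 : P i 1 : 1)`. -/
noncomputable def forms {n : ℕ} (P : Fin n → Fin 2 → ℂ) (d : ℕ) (w : Fin n → ℕ) :
    Submodule ℂ (MvPolynomial (Fin 3) ℂ) :=
  homogeneousSubmodule (Fin 3) ℂ d ⊓
    Submodule.restrictScalars ℂ
      (⨅ i : Fin n, (Ideal.span {X 0 - C (P i 0) * X 2, X 1 - C (P i 1) * X 2} :
        Ideal (MvPolynomial (Fin 3) ℂ)) ^ (w i))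

/-- `h⁰(d H - ∑ w i E i) = max (0, χ(d H - ∑ w i E i))` on the blow-up of the plane at the points
`P`. -/
def Expected {n : ℕ} (P : Fin n → Fin 2 → ℂ) (d : ℕ) (w : Fin n → ℕ) : Prop :=
  (Module.finrank ℂ ↥(forms P d w) : ℤ) =
    max 0 (((d + 2).choose 2 : ℤ) - ∑ i, ((w i + 1).choose 2 : ℤ))

theorem result (n : ℕ) (hn : 150 ≤ n) (m : ℕ) (hm : 1 ≤ m) (w : Fin n → ℕ)
    (hw : ∀ i, w i = m ∨ w i = m + 1) :
    ∃ F : MvPolynomial (Fin n × Fin 2) ℂ, F ≠ 0 ∧
      ∀ P : Fin n → Fin 2 → ℂ, eval (fun ij : Fin n × Fin 2 => P ij.1 ij.2) F ≠ 0 →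
        ∀ d : ℕ, Expected P d w := by
  obtain ⟨F, hF, hF'⟩ := Pool.Agent.U810.NA.near_all (L := ℂ) hn hm hw
  refine ⟨F.map (algebraMap ℚ ℂ), H932R3.map_ne_zero_of hF, fun P hP d => ?_⟩
  rw [MvPolynomial.eval_map] at hP
  have h := hF' P hP d
  unfold Pool.Agent.H932R3.ExpDim at h
  unfold Expected forms
  rw [h]
  have e : ∑ i, ((w i + 1).choose 2 : ℤ) = ((∑ i, (w i + 1).choose 2 : ℕ) : ℤ) := by
    push_cast
    rfl
  rw [e]
  omega

end Pool.Agent.Results.MP_70e04f_ag.NearUniformFrom150
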