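import Mathlib
import Pool.Agent.U11.Irr4

set_option autoImplicit false

/-!
# Eleven points, near-uniform classes: every multiplicity, every degree, up to one curve

Let `w i ∈ {m, m + 1}`, `m ≥ 1` ARBITRARY, be multiplicities at 11 general points of the complex projective
plane (one open set for all degrees). In EVERY degree `d` the class `D = d H - ∑ w i E i` has
`h⁰(D) = max (0, χ(D))`, or `χ(D) ≤ 0` and `h⁰(D) = 1`; then `3 ∣ d`,
`∑ w i ≤ √11 d < ∑ w i + (11 - 3 √11) / 2` and the curve has multiplicity exactly `w i` at every point; if all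
the `w i` are equal, then the curve is irreducible.
-/

namespace Pool.Agent.Results.MP_70e04f_ag.NearUniformOneCurve

open MvPolynomial

/-- the homogeneous ideal of the point `(p 0 : p 1 : 1)` -/
noncomputable def point (p : Fin 2 → ℂ) : Ideal (MvPolynomial (Fin 3) ℂ) :=
  Ideal.span ({X 0 - C (p 0) * X 2, X 1 - C (p 1) * X 2} : Set (MvPolynomial (Fin 3) ℂ))

/-- Forms of degree `d` vanishing to order at least `w i` at the points `(P i 0 : P i 1 : 1)`. -/
noncomputable def forms {n : ℕ} (P : Fin n → Fin 2 → ℂ) (d : ℕ) (w : Fin n → ℕ) :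
    Submodule ℂ (MvPolynomial (Fin 3) ℂ) :=
  homogeneousSubmodule (Fin 3) ℂ d ⊓
    Submodule.restrictScalars ℂ (⨅ i : Fin n, point (P i) ^ (w i))

/-- `χ(d H - ∑ w i E i)` -/
def chi {n : ℕ} (d : ℕ) (w : Fin n → ℕ) : ℤ :=
  ((d + 2).choose 2 : ℤ) - ∑ i, ((w i + 1).choose 2 : ℤ)

theorem result (m : ℕ) (hm : 1 ≤ m) (w : Fin 11 → ℕ) (hw : ∀ i, w i = m ∨ w i = m + 1) :
    ∃ F : MvPolynomial (Fin 11 × Fin 2) ℂ, F ≠ 0 ∧
      ∀ P : Fin 11 → Fin 2 → ℂ, eval (fun ij : Fin 11 × Fin 2 => P ij.1 ij.2) F ≠ 0 → ∀ d : ℕ,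
        (Module.finrank ℂ ↥(forms P d w) : ℤ) = max 0 (chi d w) ∨
        (chi d w ≤ 0 ∧ Module.finrank ℂ ↥(forms P d w) = 1 ∧ 3 ∣ d ∧
          ∑ i, (w i : ℝ) ≤ √11 * d ∧ √11 * d < ∑ i, (w i : ℝ) + (11 - 3 * √11) / 2 ∧
          ∀ f ∈ forms P d w, f ≠ 0 →
            (∀ i, f ∈ point (P i) ^ (w i) ∧ f ∉ point (P i) ^ (w i + 1)) ∧
            ((∀ i, w i = m) → Irreducible f)) := by
  have hs3 : 3.3 < √(11 : ℝ) := by
    rw [Real.lt_sqrt (by norm_num)]; norm_num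
  have hs4 : √(11 : ℝ) < 3.32 := by
    rw [Real.sqrt_lt' (by norm_num)]; norm_num
  obtain ⟨F1, hF1, h1⟩ := U11.arb_one w
  obtain ⟨F2, hF2, h2⟩ := U11.dims (n := 11) (w := w) (G := fun _ => True)
    (fun d _ => U11.near11_one hw d)
  obtain ⟨F3, hF3, h3⟩ := U11.irr_open hm
  obtain ⟨F4, hF4, h4⟩ := Pool.Agent.TH864.SX.expDim_of_or' (w := w)
    (G := fun d => 11 + 2 * ((∑ i, w i : ℕ) : ℝ) ≤ √11 * (2 * d + 3)) (fun d hd => by
      right
      have hpar : Pool.Agent.TH759.EV.Par 2 1 (Pool.Agent.TH759.EV.LL 11)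
          (√((11 : ℕ) : ℝ) * Pool.Agent.TH759.EV.LL 11) 11 :=
        Pool.Agent.TH759.EV.par_of (by norm_num) (by norm_num) (by norm_num) (by norm_num)
          (by norm_num)
      have hmax : ∀ i, max (w i) m = w i := fun i => by
        rcases hw i with h | h <;> omega
      exact Pool.Agent.TH759.EV.Sur_pl hpar (Fintype.card_fin 11) (b := m)
        (fun i => by rcases hw i with h | h <;> omega) (by
        simp only [hmax]
        push_cast at hd ⊢
        exact hd))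
  refine ⟨(F1 * F2 * F3 * F4).map (algebraMap ℚ ℂ),
    H932R3.map_ne_zero_of (mul_ne_zero (mul_ne_zero (mul_ne_zero hF1 hF2) hF3) hF4),
    fun P hP d => ?_⟩
  rw [MvPolynomial.eval_map] at hP
  have hP' : aeval (fun ij : Fin 11 × Fin 2 => P ij.1 ij.2) (F1 * F2 * F3 * F4) ≠ 0 := hP
  rw [map_mul, map_mul, map_mul] at hP'
  have hP4 := right_ne_zero_of_mul hP'
  have hP3 := right_ne_zero_of_mul (left_ne_zero_of_mul hP')
  have hP2 := right_ne_zero_of_mul (left_ne_zero_of_mul (left_ne_zero_of_mul hP'))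
  have hP1 := left_ne_zero_of_mul (left_ne_zero_of_mul (left_ne_zero_of_mul hP'))
  have e : ∑ i, ((w i + 1).choose 2 : ℤ) = ((∑ i, (w i + 1).choose 2 : ℕ) : ℤ) := by
    push_cast
    rfl
  have hgood : Module.finrank ℂ ↥(forms P d w) = (d + 2).choose 2 - ∑ i, (w i + 1).choose 2 →
      (Module.finrank ℂ ↥(forms P d w) : ℤ) = max 0 (chi d w) := by
    intro h5
    unfold chi
    rw [h5, e]
    omega
  rcases h2 P hP2 d trivial with h5 | ⟨h5, h6⟩
  · exact Or.inl (hgood h5)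
  have h6' : Module.finrank ℂ ↥(forms P d w) = 1 := h6
  rcases le_or_gt (11 + 2 * ((∑ i, w i : ℕ) : ℝ)) (√11 * (2 * d + 3)) with hX | hX
  · exact Or.inl (hgood (h4 P hP4 d hX))
  right
  obtain ⟨-, k2⟩ := h1 P hP1 d hX
  have hne : ∃ f ∈ forms P d w, f ≠ 0 := by
    by_contra hcon
    push Not at hcon
    have h7 : forms P d w = ⊥ := (Submodule.eq_bot_iff _).2 hcon
    have h8 := h6'
    rw [h7, finrank_bot] at h8
    exact zero_ne_one h8
  obtain ⟨f0, hf0, hf0'⟩ := hne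
  obtain ⟨g1, g2, -⟩ := k2 f0 hf0 hf0'
  have e2 : ((∑ i, w i : ℕ) : ℝ) = ∑ i, (w i : ℝ) := by push_cast; rfl
  refine ⟨?_, h6', g1, ?_, ?_, fun f hf hf' => ⟨fun i => ?_, fun hall => ?_⟩⟩
  · unfold chi
    rw [e]
    omega
  · have g3 : (0 : ℝ) ≤ (10 - 3 * √11) * ((∑ i, (w i - ⌊(d : ℝ) / √11⌋₊) : ℕ) : ℝ) :=
      mul_nonneg (by linarith) (Nat.cast_nonneg _)
    have g4 : (0 : ℝ) ≤ ((∑ i, (⌊(d : ℝ) / √11⌋₊ - w i) : ℕ) : ℝ) := Nat.cast_nonneg _
    rw [← e2]
    linarith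
  · rw [← e2]
    linarith
  · exact ⟨(TH387.EX.mem_V.1 hf).2 i, (k2 f hf hf').2.2 i⟩
  · have hwm : w = fun _ => m := funext hall
    rw [hwm] at hf hX
    rw [Finset.sum_const, Finset.card_univ, Fintype.card_fin, smul_eq_mul] at hX
    push_cast at hX
    exact (h3 P hP3 d (by linarith) f hf hf').1

end Pool.Agent.Results.MP_70e04f_ag.NearUniformOneCurve
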