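import Mathlib
import Pool.Agent.U390.NT.Base

import Pool.Agent.Y536.SH.Full

set_option autoImplicit false

/-!
# The SHGH conjecture for all classes which reduce to nearly equal multiplicities with a tail

A vector `v` of multiplicities is called a base vector if there are a set `S` of `n` of the points
and natural numbers `m ≥ n / 2` and `T` with

* `v i = m` or `v i = m + 1` at the points of `S` and `24 T + 16 √n / 3 + 95 ≤ n`, or
  `v i = m` at the points of `S`, `n ≥ 149` and `8 T + 8 √n / 3 + 29 ≤ n`;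
* `v i ≤ T` at all other points, and the sum of the squares of those of these `v i` which are at
  least `2` is at most `T (m - T)`.

So `m` and `m + 1` occur `n` times in any proportion, any number of points is simple, and the tail
consists of arbitrary multiplicities up to about `n / 24` (`n / 8` for equal `v i` on `S`); the number
of its points is not bounded (it grows with `m`).

A class `(d; w)` is good if `w ≤ v` and `χ (d; v) ≥ 0`, or `v ≤ w` and `χ (d; v) ≤ 0`, for some base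
vector `v`. Every class in the Weyl group orbit of a good standard class has `h⁰ = max (0, χ)` at
general points. For every class `D` and general points at least one of the following holds:
`h⁰ (D) = max (0, χ)`; some `(-1)`-curve `C` has `C D ≤ -2`; or `D`, after the removal of disjoint
`(-1)`-curves, each taken once, and finitely many quadratic transformations, is a standard class
with the same `h⁰`, different from `max (0, χ)`, which is not good.
-/

namespace Pool.Agent.Results.MP_70e04f_ag.NearlyEqualTailForms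

open MvPolynomial Pool.Agent.TH167.SHDefs

/-- `h⁰ (D)` for the class `D = d H - ∑ w i E i`. -/
noncomputable def hZero {n : ℕ} (P : Fin n → Fin 2 → ℂ) (d : ℕ) (w : Fin n → ℕ) : ℤ :=
  (Module.finrank ℂ ↥(sys P d w) : ℤ)

/-- The Euler characteristic. -/
def chi {n : ℕ} (d : ℕ) (w : Fin n → ℕ) : ℤ :=
  ((d + 2).choose 2 : ℤ) - ∑ i, ((w i + 1).choose 2 : ℤ)

/-- The property holds for all `n`-tuples of points outside some hypersurface. -/
def ForGeneral {n : ℕ} (p : (Fin n → Fin 2 → ℂ) → Prop) : Prop :=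
  ∃ F : MvPolynomial (Fin n × Fin 2) ℂ, F ≠ 0 ∧ ∀ P : Fin n → Fin 2 → ℂ,
    eval (fun ij : Fin n × Fin 2 => P ij.1 ij.2) F ≠ 0 → p P

/-- The reflection of the class `a = (d; w)`, `d H - ∑ w l E l`, in the class
`H - E (i 0) - E (i 1) - E (i 2)`: with `δ = d - w (i 0) - w (i 1) - w (i 2)`, the numbers
`d`, `w (i 0)`, `w (i 1)`, `w (i 2)` are increased by `δ`. -/
def reflect {n : ℕ} (i : Fin 3 → Fin n) (a : ℤ × (Fin n → ℤ)) : ℤ × (Fin n → ℤ) :=
  (a.1 + (a.1 - a.2 (i 0) - a.2 (i 1) - a.2 (i 2)),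
    fun l => a.2 l + if l = i 0 ∨ l = i 1 ∨ l = i 2 then a.1 - a.2 (i 0) - a.2 (i 1) - a.2 (i 2)
      else 0)

/-- Finitely many reflections carry `(d; w)` to `(d'; w')`. -/
def Carries {n : ℕ} (d : ℕ) (w : Fin n → ℕ) (d' : ℕ) (w' : Fin n → ℕ) : Prop :=
  Relation.ReflTransGen
    (fun a b : ℤ × (Fin n → ℤ) => ∃ i : Fin 3 → Fin n, Function.Injective i ∧ b = reflect i a)
    ((d : ℤ), fun l => (w l : ℤ)) ((d' : ℤ), fun l => (w' l : ℤ))

/-- The class is standard. -/
def Standard {n : ℕ} (d : ℕ) (w : Fin n → ℕ) : Prop :=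
  ∀ i j l : Fin n, i ≠ j → i ≠ l → j ≠ l → w i + w j + w l ≤ d

/-- The base vectors: the multiplicities at the points of the set `S` are `m` or `m + 1`, or all
equal to `m`, where `|S| ≤ 2 m`; the other multiplicities are at most `T`, which is bounded by about
`|S| / 24` resp. `|S| / 8`, and the sum of the squares of those of them which are larger than `1` is
at most `T (m - T)`. -/
def Base {h : ℕ} (v : Fin h → ℕ) : Prop :=
  ∃ (S : Finset (Fin h)) (m T : ℕ), S.card ≤ 2 * m ∧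
    (((∀ i ∈ S, v i = m ∨ v i = m + 1) ∧
        24 * (T : ℝ) + 16 * √(S.card : ℝ) / 3 + 95 ≤ S.card) ∨
      ((∀ i ∈ S, v i = m) ∧ 149 ≤ S.card ∧
        8 * (T : ℝ) + 8 * √(S.card : ℝ) / 3 + 29 ≤ S.card)) ∧
    (∀ j, j ∉ S → v j ≤ T) ∧
    ∑ j ∈ Finset.univ.filter (fun j => j ∉ S ∧ 2 ≤ v j), v j ^ 2 + T ^ 2 ≤ T * m

/-- The good classes: on one side of `χ = 0` with a base vector. -/
def Good {h : ℕ} (d : ℕ) (w : Fin h → ℕ) : Prop :=
  ∃ v : Fin h → ℕ, Base v ∧
    (((∀ i, w i ≤ v i) ∧ ∑ i, (v i + 1).choose 2 ≤ (d + 2).choose 2) ∨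
      ((∀ i, v i ≤ w i) ∧ (d + 2).choose 2 ≤ ∑ i, (v i + 1).choose 2))

theorem good_exp {h d : ℕ} {w : Fin h → ℕ} (hw : Good d w) {K : Type} [Field K] [CharZero K]
    {P : Fin h → Fin 2 → K}
    (hP : AlgebraicIndependent ℚ (fun ij : Fin h × Fin 2 => P ij.1 ij.2)) :
    Pool.Agent.H932R3.ExpDim K w P d :=
  Pool.Agent.U390.NT.good_exp hw hP

theorem hZero_of {n : ℕ} {P : Fin n → Fin 2 → ℂ} {d : ℕ} {w : Fin n → ℕ}
    (h : Pool.Agent.H932R3.ExpDim ℂ w P d) : hZero P d w = max 0 (chi d w) := by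
  have h1 : Module.finrank ℂ ↥(sys P d w) =
      Nat.choose (d + 2) 2 - ∑ i, Nat.choose (w i + 1) 2 := h
  have h2 : ∑ i, ((w i + 1).choose 2 : ℤ) = ((∑ i, Nat.choose (w i + 1) 2 : ℕ) : ℤ) := by
    push_cast
    rfl
  unfold hZero chi
  rw [h1, h2]
  omega

theorem special_of_ne {n : ℕ} {P : Fin n → Fin 2 → ℂ} {d : ℕ} {w : Fin n → ℕ} :
    hZero P d w ≠ max 0 (chi d w) ↔ Pool.Agent.TH167.SH.Special P d w := by
  unfold hZero Pool.Agent.TH167.SH.Special
  rw [Pool.Agent.TH167.SH.sys_eq]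
  exact Iff.rfl

theorem result (n : ℕ) (hn : 4 ≤ n) (d : ℕ) (w : Fin n → ℕ) : ForGeneral fun P =>
    ((∃ (d' : ℕ) (w' : Fin n → ℕ), Carries d w d' w' ∧ Standard d' w' ∧ Good d' w') →
      hZero P d w = max 0 (chi d w)) ∧
    (hZero P d w = max 0 (chi d w) ∨
      (∃ (G : MvPolynomial (Fin 3) ℂ) (e : ℕ) (u : Fin n → ℕ), MinusOne P G e u ∧
        inter d w e u ≤ -2) ∨
      ∃ (d'' : ℕ) (w'' : Fin n → ℕ) (k : ℕ) (G : Fin k → MvPolynomial (Fin 3) ℂ)
        (e : Fin k → ℕ) (u : Fin k → Fin n → ℕ) (d' : ℕ) (w' : Fin n → ℕ),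
        Decomp P d w d'' w'' G e u (fun _ => 1) ∧
        Relation.ReflTransGen Quadratic (d'', w'') (d', w') ∧ Standard d' w' ∧
        hZero P d' w' = hZero P d w ∧ hZero P d' w' ≠ max 0 (chi d' w') ∧ ¬ Good d' w') := by
  obtain ⟨F1, hF1, hF1'⟩ : ForGeneral fun P : Fin n → Fin 2 → ℂ =>
      (∃ (d' : ℕ) (w' : Fin n → ℕ), Carries d w d' w' ∧ Standard d' w' ∧ Good d' w') →
        hZero P d w = max 0 (chi d w) := by
    by_cases h : ∃ (d' : ℕ) (w' : Fin n → ℕ), Carries d w d' w' ∧ Standard d' w' ∧ Good d' w'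
    · obtain ⟨d', w', hc, hs, hG⟩ := h
      obtain ⟨F, hF, hF'⟩ := Pool.Agent.TH442.NF.to_open (d := d) (w := w)
        fun hP => Pool.Agent.TH442.NF.up_enef hP hc
          (Pool.Agent.TH442.NF.enef_of_std hn _ hs) (good_exp hG hP)
      refine ⟨F.map (algebraMap ℚ ℂ), Pool.Agent.H932R3.map_ne_zero_of hF, fun P hP _ => ?_⟩
      rw [MvPolynomial.eval_map] at hP
      exact hZero_of (hF' (L := ℂ) P hP)
    · exact ⟨1, one_ne_zero, fun P _ h' => absurd h' h⟩
  obtain ⟨r, rfl⟩ : ∃ r, n = r + 4 := ⟨n - 4, by omega⟩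
  obtain ⟨F, hF, hF'⟩ := Pool.Agent.Y536.SH.hh_full (Q := fun d' w' => Good d' w')
    (fun hP d1 w1 _ hG => good_exp hG hP) d w
  refine ⟨F1 * F.map (algebraMap ℚ ℂ), mul_ne_zero hF1 (Pool.Agent.TH167.SH.map_ne hF),
    fun P hP => ?_⟩
  rw [map_mul] at hP
  refine ⟨hF1' P (left_ne_zero_of_mul hP), ?_⟩
  have hP2 := right_ne_zero_of_mul hP
  rw [Pool.Agent.TH167.SH.evP_eval] at hP2
  by_cases hs : hZero P d w = max 0 (chi d w)
  · exact Or.inl hs
  · right
    have hsp := special_of_ne.1 hs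
    rcases hF' ℂ P hP2 hsp with h | ⟨d', w', k, C, e, u, N, d1, w1, h1, h2, h3, h4, h5, h6⟩
    · left
      exact Pool.Agent.TH167.SH.mspecial_curve ((Pool.Agent.TH167.SH.mspecial_conv P d w).2 h)
    · by_cases hN : ∃ a, 2 ≤ N a
      · left
        obtain ⟨a, ha⟩ := hN
        refine ⟨C a, e a, u a, Pool.Agent.TH167.SH.minusOne_iff.2 (h1.exc a), ?_⟩
        rw [Pool.Agent.TH167.SH.inter_eq, h1.neg a]
        omega
      · right
        push Not at hN
        have hN1 : N = fun _ => 1 := by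
          funext a
          have := h1.pos a
          have := hN a
          omega
        subst hN1
        refine ⟨d', w', k, C, e, u, d1, w1, Pool.Agent.TH167.SH.decomp_iff.2 h1,
          Pool.Agent.TH167.SH.chain_conv h2, h3, ?_, special_of_ne.2 h4, h6⟩
        unfold hZero
        rw [Pool.Agent.TH167.SH.sys_eq, Pool.Agent.TH167.SH.sys_eq, h5]

end Pool.Agent.Results.MP_70e04f_ag.NearlyEqualTailForms
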