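import Mathlib
import Pool.Agent.U479.DP.Open
import Pool.Agent.H248R5.Gen
import Pool.Agent.H248R6.Dim

set_option autoImplicit false

/-!
# The SHGH conjecture for equal multiplicities and any number of double and simple points

Let `w` be the multiplicities `M ≥ 3` at `k` points and `2`, `1` or `0` at ARBITRARILY many further
points, all of them general points of the complex projective plane. Here `k` is `13`, `16`, `21`,
`25` or at least `36`, and `M` is arbitrary, or `k = δ ^ 2 + 2 κ ≥ 10` and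
`k M (M + 1) < δ ^ 2 (δ ^ 2 + 3) (δ ^ 2 + 4)`. Then for EVERY degree `d` the class
`d H - ∑ w i E i` has `h⁰ = max (0, χ)`, and so have all `d H - ∑ u i E i` with `u ≤ w`, if
`χ (d; w) ≥ 0`, and with `u ≥ w`, if `χ (d; w) ≤ 0`.

The points are those of one nonempty open set which depends neither on `d` nor on `u`.
-/

namespace Pool.Agent.Results.MP_70e04f_ag.UniformWithDoublePoints

open MvPolynomial

/-- Forms of degree `d` vanishing to order at least `w i` at the points `(P i 0 : P i 1 : 1)`. -/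
noncomputable def forms {n : ℕ} (P : Fin n → Fin 2 → ℂ) (d : ℕ) (w : Fin n → ℕ) :
    Submodule ℂ (MvPolynomial (Fin 3) ℂ) :=
  homogeneousSubmodule (Fin 3) ℂ d ⊓
    Submodule.restrictScalars ℂ
      (⨅ i : Fin n, (Ideal.span {X 0 - C (P i 0) * X 2, X 1 - C (P i 1) * X 2} :
        Ideal (MvPolynomial (Fin 3) ℂ)) ^ (w i))

/-- `χ (d H - ∑ w i E i)` on the blow-up of the plane. -/
def chi {n : ℕ} (d : ℕ) (w : Fin n → ℕ) : ℤ :=
  ((d + 2).choose 2 : ℤ) - ∑ i, ((w i + 1).choose 2 : ℤ)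

/-- The multiplicity is `M` at `k` points and at most `2` at the others. -/
def EqualAboveTwo {n : ℕ} (k M : ℕ) (w : Fin n → ℕ) : Prop :=
  3 ≤ M ∧ (∀ i, w i = M ∨ w i ≤ 2) ∧ (Finset.univ.filter fun i => w i = M).card = k

/-- The allowed numbers `k` of points of multiplicity `M`: `13`, `21`, all `k ≥ 36`, the squares
`≥ 10`, and all `k = δ ^ 2 + 2 κ ≥ 10` with `k M (M + 1) < δ ^ 2 (δ ^ 2 + 3) (δ ^ 2 + 4)`. -/
def Allowed (k M : ℕ) : Prop :=
  k = 13 ∨ k = 21 ∨ 36 ≤ k ∨ (10 ≤ k ∧ ∃ δ κ : ℕ, 2 ≤ δ ∧ k = δ ^ 2 + 2 * κ ∧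
    (κ = 0 ∨ k * (M * (M + 1)) < δ ^ 2 * (δ ^ 2 + 3) * (δ ^ 2 + 4)))

/-- The class `(d; u)` lies on the same side of `χ = 0` as `(d; w)`: `u ≤ w` and `χ (d; w) ≥ 0`, or
`u ≥ w` and `χ (d; w) ≤ 0`. This holds for `u = w`. -/
def SameSide {n : ℕ} (d : ℕ) (w u : Fin n → ℕ) : Prop :=
  ((∀ i, u i ≤ w i) ∧ 0 ≤ chi d w) ∨ ((∀ i, w i ≤ u i) ∧ chi d w ≤ 0)

theorem chi_eq {n : ℕ} (d : ℕ) (w : Fin n → ℕ) :
    chi d w = ((d + 2).choose 2 : ℤ) - ((∑ i, (w i + 1).choose 2 : ℕ) : ℤ) := by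
  unfold chi
  push_cast
  rfl

theorem surj_of {n : ℕ} {w u : Fin n → ℕ} {P : Fin n → Fin 2 → ℂ} {d : ℕ}
    (h : H932R3.ExpDim ℂ w P d) (hd : ∑ i, (w i + 1).choose 2 ≤ (d + 2).choose 2)
    (hu : ∀ i, u i ≤ w i) : Function.Surjective (H248R5.ev u P d) := by
  refine H248R6.surj_mono hu (H248R5.surj_of_ind ?_)
  have h1 : Module.finrank ℂ ↥(H248R5.forms w P d) = (d + 2).choose 2 - ∑ i, (w i + 1).choose 2 :=
    h
  omega

theorem result (n k M : ℕ) (hk : Allowed k M) (w : Fin n → ℕ) (hw : EqualAboveTwo k M w) :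
    ∃ F : MvPolynomial (Fin n × Fin 2) ℂ, F ≠ 0 ∧ ∀ P : Fin n → Fin 2 → ℂ,
      eval (fun ij : Fin n × Fin 2 => P ij.1 ij.2) F ≠ 0 →
        ∀ (d : ℕ) (u : Fin n → ℕ), SameSide d w u →
          (Module.finrank ℂ ↥(forms P d u) : ℤ) = max 0 (chi d u) := by
  obtain ⟨hM, hw1, hw2⟩ := hw
  have hw' : Pool.Agent.U479.DP.Frequent w := Or.inl ⟨k, M, hM, hw1, hw2, hk⟩
  obtain ⟨F, hF, hF'⟩ := Pool.Agent.U479.DP.open_every (w := w)
    fun d K _ _ P hP => Pool.Agent.U479.DP.frequent_exp hw' hP d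
  refine ⟨F.map (algebraMap ℚ ℂ), H932R3.map_ne_zero_of hF, fun P hP d u hu => ?_⟩
  rw [MvPolynomial.eval_map] at hP
  have h1 : H932R3.ExpDim ℂ w P d := hF' (L := ℂ) P hP d
  have h2 : Module.finrank ℂ ↥(forms P d w) = (d + 2).choose 2 - ∑ i, (w i + 1).choose 2 := h1
  rcases hu with ⟨hu, h3⟩ | ⟨hu, h3⟩
  · rw [chi_eq] at h3
    have h4 := H248R6.finrank_of_surj (surj_of h1 (by omega) hu)
    have h5 : Module.finrank ℂ ↥(forms P d u) = Module.finrank ℂ ↥(H248R5.forms u P d) := rfl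
    rw [h5, chi_eq]
    omega
  · rw [chi_eq] at h3
    have hfin : Module.Finite ℂ ↥(forms P d w) := H248R6.forms_finite w P d
    have h4 : Module.finrank ℂ ↥(forms P d u) ≤ Module.finrank ℂ ↥(forms P d w) := by
      refine Submodule.finrank_mono (inf_le_inf_left _ ?_)
      intro G hG
      exact (iInf_mono fun i => Ideal.pow_le_pow_right (hu i)) hG
    have h5 : ∑ i, (w i + 1).choose 2 ≤ ∑ i, (u i + 1).choose 2 :=
      Finset.sum_le_sum fun i _ => Nat.choose_le_choose 2 (Nat.succ_le_succ (hu i))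
    rw [chi_eq]
    omega

end Pool.Agent.Results.MP_70e04f_ag.UniformWithDoublePoints
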